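import Pool.Agent.Helper38.WY.Goals2
import Pool.Agent.Helper40.RS.Gal
import Pool.Agent.Helper32.RD.VAL

/-!
# Packet WY-Y_LFT (MP_fc6b1e_nt): lifting of elements of the decomposition group
-/

namespace Pool.Agent.Helper86.WY

open NumberField IsDedekindDomain
open Pool.Agent.Helper32.RDV (wt PI mem_PI norm_le_one_of_val norm_int_le norm_p' mem_iff_val wt_p)
open Pool.Agent.Helper40.RS (bel conj_of_bel)

section norm

variable {M : Type} [Field M] [NumberField M] {p : ℕ} [hp : Fact p.Prime] {k : Type}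
  [NormedField k] [NormedAlgebra ℚ_[p] k] [IsUltrametricDist k]

lemma norm_eq_one_of_val (τ : M →+* k) {z : M} (h : (wt p τ).valuation M z = 1) : ‖τ z‖ = 1 := by
  have hz : z ≠ 0 := by
    rintro rfl
    rw [map_zero] at h
    exact zero_ne_one h
  have h1 := norm_le_one_of_val τ h.le
  have h2 : (wt p τ).valuation M z⁻¹ ≤ 1 := by rw [map_inv₀, h, inv_one]
  have h3 := norm_le_one_of_val τ h2
  rw [map_inv₀, norm_inv] at h3
  have h4 : 0 < ‖τ z‖ := norm_pos_iff.2 ((map_ne_zero τ).2 hz)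
  refine le_antisymm h1 ?_
  rw [inv_le_comm₀ h4 one_pos, inv_one] at h3
  exact h3

/-- The absolute value is determined by the prime. -/
lemma norm_eq_of_wt (τ τ' : M →+* k) (h : wt p τ' = wt p τ) (y : M) : ‖τ' y‖ = ‖τ y‖ := by
  rcases eq_or_ne y 0 with rfl | hy
  · simp
  have hp0 : (p : M) ≠ 0 := Nat.cast_ne_zero.2 hp.out.ne_zero
  set v := wt p τ with hv
  have hb := wt_p (p := p) τ
  rw [← hv] at hb
  have ha0 : v.valuation M y ≠ 0 := (map_ne_zero _).2 hy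
  have hb0 : v.valuation M (p : M) ≠ 0 := (map_ne_zero _).2 hp0
  set n : ℤ := WithZero.log (v.valuation M y) with hn
  set e : ℤ := WithZero.log (v.valuation M (p : M)) with he
  have he0 : e ≠ 0 := by
    intro h0
    have h1 := WithZero.exp_log hb0
    rw [← he, h0, WithZero.exp_zero] at h1
    rw [← h1] at hb
    exact lt_irrefl _ hb
  have hz : v.valuation M (y ^ e * (p : M) ^ (-n)) = 1 := by
    rw [map_mul, map_zpow₀, map_zpow₀, ← WithZero.exp_log ha0, ← WithZero.exp_log hb0, ← hn, ← he,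
      ← WithZero.exp_zsmul, ← WithZero.exp_zsmul, ← WithZero.exp_add]
    have : e • n + -n • e = 0 := by
      rw [smul_eq_mul, smul_eq_mul]
      ring
    rw [this, WithZero.exp_zero]
  have h1 : ‖τ (y ^ e * (p : M) ^ (-n))‖ = 1 := norm_eq_one_of_val τ hz
  have h2 : ‖τ' (y ^ e * (p : M) ^ (-n))‖ = 1 := by
    apply norm_eq_one_of_val (p := p) τ'
    rw [h]
    exact hz
  rw [map_mul, map_zpow₀, map_zpow₀, map_natCast, norm_mul, norm_zpow] at h1 h2
  have hpk : ‖((p : k)) ^ (-n)‖ ≠ 0 := by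
    have h5 : (0 : ℝ) < ‖(p : k)‖ := by
      rw [norm_p' (p := p)]
      have := hp.out.pos
      positivity
    rw [norm_zpow]
    exact (zpow_pos h5 _).ne'
  have h3 : ‖τ' y‖ ^ e = ‖τ y‖ ^ e := mul_right_cancel₀ hpk (h2.trans h1.symm)
  exact (zpow_left_inj₀ (norm_nonneg _) (norm_nonneg _) he0).1 h3

end norm

theorem y_lft : Pool.Agent.Helper38.WY.Y_LFT := by
  intro p _ K M M₂ _ _ _ _ _ _ _ _ _ _ _ _ τ g hg
  have hG : IsGalois M M₂ := IsGalois.tower_top_of_isGalois K M M₂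
  set g₀ : M₂ ≃ₐ[K] M₂ := g.liftNormal M₂ with hg₀
  have hg₀' : ∀ y : M, g₀ (algebraMap M M₂ y) = algebraMap M M₂ (g y) :=
    fun y => AlgEquiv.liftNormal_commutes g M₂ y
  set τ' : M₂ →+* ℂ_[p] := τ.comp (g₀ : M₂ →+* M₂) with hτ'
  have hτ'a : ∀ y, τ' y = τ (g₀ y) := fun y => rfl
  have hbel : bel M (wt p τ') = bel M (wt p τ) := by
    apply HeightOneSpectrum.ext
    ext x
    have h1 : x ∈ (bel M (wt p τ')).asIdeal ↔ ‖τ' (algebraMap M M₂ (x : M))‖ < 1 := Iff.rfl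
    have h2 : x ∈ (bel M (wt p τ)).asIdeal ↔ ‖τ (algebraMap M M₂ (x : M))‖ < 1 := Iff.rfl
    rw [h1, h2, hτ'a, hg₀', hg]
  obtain ⟨h, hh⟩ := conj_of_bel _ _ hbel
  set τ'' : M₂ →+* ℂ_[p] := τ'.comp (h : M₂ →+* M₂) with hτ''
  have hwt : wt p τ'' = wt p τ := by
    apply HeightOneSpectrum.ext
    ext b
    have h1 : b ∈ (wt p τ'').asIdeal ↔ ‖τ' (h (b : M₂))‖ < 1 := Iff.rfl
    have h2 : b ∈ (wt p τ).asIdeal ↔ (wt p τ).valuation M₂ (b : M₂) < 1 :=
      (mem_iff_val _ b).symm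
    rw [h1, h2, ← hh]
    have hint : IsIntegral ℤ (h (b : M₂)) := (b.2 : IsIntegral ℤ (b : M₂)).map (h : M₂ ≃ₐ[M] M₂)
    exact ((mem_iff_val (wt p τ') ⟨h (b : M₂), hint⟩).symm)
  refine ⟨(h.restrictScalars K).trans g₀, ?_, ?_⟩
  · intro y
    show g₀ (h (algebraMap M M₂ y)) = _
    rw [h.commutes, hg₀']
  · intro y
    exact norm_eq_of_wt (p := p) τ τ'' hwt y

end Pool.Agent.Helper86.WY
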