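import Pool.Agent.Helper38.WY.Goals6
import Pool.Agent.Helper16.RP.LA

/-!
# Packet WY-O_LA (MP_fc6b1e_nt): the linear algebra of project WY for `p` odd
-/

set_option autoImplicit false

namespace Pool.Agent.Helper86.WY

open Polynomial Module TensorProduct
open Pool.Agent.Helper51.SigLeo
open Pool.Agent.Helper16.RP
open Pool.Agent.Helper12.RS (exists_coord s_eq ker_sub)

section ident

/-- `Y^j = 1 + j(Y-1) + (Y-1)^2 r` -/
theorem pow_exp {R : Type*} [CommRing R] (Y : R) (j : ℕ) :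
    ∃ r : R, Y ^ j = 1 + j * (Y - 1) + (Y - 1) ^ 2 * r := by
  induction j with
  | zero => exact ⟨0, by simp⟩
  | succ j ih =>
    obtain ⟨r, hr⟩ := ih
    refine ⟨Y * r + j, ?_⟩
    rw [pow_succ, hr]
    push_cast
    ring

theorem geom_exp {R : Type*} [CommRing R] (Y : R) (p c : ℕ) (hc : p = 2 * c + 1) :
    ∃ h b : R, (p : R) = (Y - 1) ^ 2 * h + b * ∑ j ∈ Finset.range p, Y ^ j := by
  choose r hr using fun j => pow_exp Y j
  have h1 : ∑ j ∈ Finset.range p, Y ^ j =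
      p * (1 + c * (Y - 1)) + (Y - 1) ^ 2 * ∑ j ∈ Finset.range p, r j := by
    have h2 : ∑ j ∈ Finset.range p, Y ^ j =
        ∑ j ∈ Finset.range p, (1 + (j : R) * (Y - 1) + (Y - 1) ^ 2 * r j) :=
      Finset.sum_congr rfl fun j _ => hr j
    have h3 : (∑ j ∈ Finset.range p, (j : R)) = p * c := by
      have h4 : (∑ j ∈ Finset.range p, j) = p * c := by
        have h5 := Finset.sum_range_id_mul_two p
        have h6 : p - 1 = 2 * c := by omega
        rw [h6] at h5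
        have h7 : (∑ j ∈ Finset.range p, j) * 2 = (p * c) * 2 := by rw [h5]; ring
        omega
      have h8 := congrArg (fun t : ℕ => (t : R)) h4
      push_cast at h8
      exact h8
    rw [h2, Finset.sum_add_distrib, Finset.sum_add_distrib, ← Finset.sum_mul, h3,
      ← Finset.mul_sum, Finset.sum_const, Finset.card_range, nsmul_eq_mul]
    ring
  refine ⟨p * c ^ 2 - (∑ j ∈ Finset.range p, r j) * (1 - c * (Y - 1)), 1 - c * (Y - 1), ?_⟩
  rw [h1]
  ring

theorem frob_pow {R : Type*} [CommRing R] (x : R) {p : ℕ} (hp : p.Prime) (hp2 : p ≠ 2) (n : ℕ) :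
    ∃ g : R, (x - 1) ^ p ^ n = x ^ p ^ n - 1 + p * g := by
  obtain ⟨r, hr⟩ := exists_add_pow_prime_pow_eq hp x (-1) n
  have h1 : (-1 : R) ^ p ^ n = -1 := ((hp.odd_of_ne_two hp2).pow).neg_one_pow
  refine ⟨x * (-1) * r, ?_⟩
  rw [sub_eq_add_neg, hr, h1]
  ring

theorem main_ident {p : ℕ} (hp : p.Prime) (hp2 : p ≠ 2) (n : ℕ) :
    ∃ H G : ℤ[X], ((X : ℤ[X]) - 1) ^ p ^ n = (X ^ p ^ n - 1) * (1 + (X ^ p ^ n - 1) * H) +
      G * ∑ j ∈ Finset.range p, (X ^ p ^ n) ^ j := by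
  obtain ⟨c, hc⟩ := hp.odd_of_ne_two hp2
  obtain ⟨h, b, hb⟩ := geom_exp (X ^ p ^ n : ℤ[X]) p c hc
  obtain ⟨g, hg⟩ := frob_pow (X : ℤ[X]) hp hp2 n
  refine ⟨h * g, b * g, ?_⟩
  rw [hg, hb]
  ring

/-- in a ring -/
theorem main_ident' {S : Type*} [Ring S] (s : S) {p : ℕ} (hp : p.Prime) (hp2 : p ≠ 2) (n : ℕ)
    (hs : ∑ j ∈ Finset.range p, (s ^ p ^ n) ^ j = 0) :
    ∃ a : S, Commute s a ∧
      (s - 1) ^ p ^ n = (s ^ p ^ n - 1) * (1 + (s ^ p ^ n - 1) * a) := by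
  obtain ⟨H, G, h⟩ := main_ident hp hp2 n
  refine ⟨aeval s H, (Commute.symm (comm_aeval (Commute.refl s) H)), ?_⟩
  have h1 := congrArg (aeval s) h
  simp only [map_pow, map_sub, aeval_X, map_one, map_add, map_mul, map_sum, hs, mul_zero,
    add_zero] at h1
  exact h1

theorem frob_pow' {S : Type*} [Ring S] (s : S) {p : ℕ} (hp : p.Prime) (hp2 : p ≠ 2) (n : ℕ) :
    ∃ a : ℤ[X], (s - 1) ^ p ^ n = s ^ p ^ n - 1 + p * aeval s a := by
  obtain ⟨g, hg⟩ := frob_pow (X : ℤ[X]) hp hp2 n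
  refine ⟨g, ?_⟩
  have h1 := congrArg (aeval s) hg
  simp only [map_pow, map_sub, aeval_X, map_one, map_add, map_mul, map_natCast] at h1
  exact h1

end ident

section free

variable {p : ℕ} [Fact p.Prime] {Q : Type*} [AddCommGroup Q] [Module ℤ_[p] Q]

theorem tf_inj [Module.IsTorsionFree ℤ_[p] Q] {x : Q} (h : (p : ℤ_[p]) • x = 0) : x = 0 := by
  have hp : p.Prime := Fact.out
  exact (smul_eq_zero.1 h).resolve_left (Nat.cast_ne_zero.2 hp.ne_zero)

theorem sum_fix (s : Module.End ℤ_[p] Q) {x : Q} (h : s x = x) (n : ℕ) : (s ^ n) x = x := by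
  induction n with
  | zero => rfl
  | succ n ih => rw [pow_succ, Module.End.mul_apply, h, ih]

theorem fix_zero [Module.IsTorsionFree ℤ_[p] Q] (y : Module.End ℤ_[p] Q)
    (hy : ∑ j ∈ Finset.range p, y ^ j = 0) {x : Q} (h : y x = x) : x = 0 := by
  apply tf_inj (p := p)
  have h1 := congrArg (fun T : Module.End ℤ_[p] Q => T x) hy
  simp only [LinearMap.sum_apply, LinearMap.zero_apply, sum_fix y h] at h1
  rw [Finset.sum_const, Finset.card_range, ← Nat.cast_smul_eq_nsmul ℤ_[p]] at h1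
  exact h1

/-- the key statement, on a module without torsion -/
theorem key [Module.IsTorsionFree ℤ_[p] Q] [Module.Finite ℤ_[p] Q] (hp2 : p ≠ 2) (n : ℕ)
    (s : Module.End ℤ_[p] Q) (hs : ∑ j ∈ Finset.range p, (s ^ p ^ n) ^ j = 0)
    (W : Submodule ℤ_[p] Q) (hW : ∀ w ∈ W, s w ∈ W) (hsat : ∀ v, s v - v ∈ W → v ∈ W)
    (hne : W ≠ ⊥) :
    ∃ w ∈ W, ¬ ∃ v, ((s - 1) ^ (p ^ n - 1)) w = (s ^ p ^ n) v - v := by
  have hp : p.Prime := Fact.out
  have hfix : ∀ x, s x = x → x = 0 := fun x hx => fix_zero (s ^ p ^ n) hs (sum_fix s hx _)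
  obtain ⟨w, hwW, hw⟩ : ∃ w ∈ W, ¬ ∃ v, w = s v - v := by
    by_contra hcon
    push Not at hcon
    apply hne
    obtain ⟨g, hg⟩ := frob_pow' s hp hp2 (n + 1)
    have hs1 : s ^ p ^ (n + 1) = 1 := by
      have h1 := geom_sum_mul (s ^ p ^ n) p
      rw [hs, zero_mul, ← pow_mul, ← pow_succ] at h1
      exact (sub_eq_zero.1 h1.symm)
    rw [hs1, sub_self, zero_add] at hg
    have h1 : ∀ (k : ℕ), ∀ w ∈ W, ∃ v ∈ W, w = ((s - 1) ^ k) v := by
      intro k
      induction k with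
      | zero => exact fun w hw => ⟨w, hw, rfl⟩
      | succ k ih =>
        intro w hw
        obtain ⟨v, hv, rfl⟩ := ih w hw
        obtain ⟨u, rfl⟩ := hcon v hv
        refine ⟨u, hsat u hv, ?_⟩
        rw [pow_succ, Module.End.mul_apply]
        rfl
    refine Submodule.eq_bot_of_le_smul_of_le_jacobson_bot (IsLocalRing.maximalIdeal ℤ_[p]) W
      (IsNoetherian.noetherian W) ?_
      (le_of_eq (IsLocalRing.jacobson_eq_maximalIdeal ⊥ bot_ne_top).symm)
    intro w hw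
    obtain ⟨v, hv, rfl⟩ := h1 (p ^ (n + 1)) w hw
    rw [hg, Module.End.mul_apply]
    have h2 : ((p : Module.End ℤ_[p] Q)) (aeval s g v) = (p : ℤ_[p]) • (aeval s g v) := by
      rw [Nat.cast_smul_eq_nsmul]
      exact Module.End.natCast_apply p _
    rw [h2]
    refine Submodule.smul_mem_smul ?_ (aeval_mem hW g hv)
    rw [PadicInt.maximalIdeal_eq_span_p]
    exact Ideal.mem_span_singleton_self _
  refine ⟨w, hwW, ?_⟩
  rintro ⟨v, hv⟩
  apply hw
  obtain ⟨a, hsa, ha⟩ := main_ident' s hp hp2 n hs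
  set y := s ^ p ^ n with hy
  have hcy : Commute (s - 1) (y - 1) :=
    ((Commute.refl s).sub_left (Commute.one_left s)).pow_right _ |>.sub_right (Commute.one_right _)
  -- `(s-1)^(p^n) w = (y-1)(s-1)v`
  have h1 : ((s - 1) ^ p ^ n) w = (y - 1) ((s - 1) v) := by
    have h2 : (s - 1) ^ p ^ n = (s - 1) * (s - 1) ^ (p ^ n - 1) := by
      rw [← pow_succ', Nat.sub_add_cancel (Nat.one_le_pow _ _ hp.pos)]
    have h3 : (y - 1) ((s - 1) v) = (s - 1) ((y - 1) v) := by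
      rw [← Module.End.mul_apply, ← hcy.eq, Module.End.mul_apply]
    rw [h2, Module.End.mul_apply, hv, h3]
    rfl
  rw [ha, Module.End.mul_apply] at h1
  have h4 : (1 + (y - 1) * a) w = (s - 1) v := by
    rw [← sub_eq_zero, ← map_sub] at h1
    have h5 := fix_zero y hs (x := (1 + (y - 1) * a) w - (s - 1) v) (by
      rw [LinearMap.sub_apply, Module.End.one_apply, sub_eq_zero] at h1
      exact h1)
    exact sub_eq_zero.1 h5
  -- `y - 1 = (s-1) q`
  have h6 : y - 1 = (s - 1) * ∑ j ∈ Finset.range (p ^ n), s ^ j := (mul_geom_sum s (p ^ n)).symm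
  refine ⟨v - (∑ j ∈ Finset.range (p ^ n), s ^ j) (a w), ?_⟩
  have h7 : w = (s - 1) v - (y - 1) (a w) := by
    rw [← h4, LinearMap.add_apply, Module.End.one_apply, Module.End.mul_apply]
    abel
  have h8 : (y - 1) (a w) = (s - 1) ((∑ j ∈ Finset.range (p ^ n), s ^ j) (a w)) := by
    rw [h6, Module.End.mul_apply]
  rw [h8, ← map_sub] at h7
  exact h7

end free

section gp

variable {p : ℕ} [Fact p.Prime] {A : Type} [AddCommGroup A]
variable {k : Type} [NormedField k] [NormedAlgebra ℚ_[p] k]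

/-- The element of `ℤ_p ⊗ A` which satisfies all the linear relations of `z`. -/
theorem gp2 [Module.Finite ℤ A] (Φ : ℤ_[p][X]) (ζ : k)
    (hΦ : eval₂ ((algebraMap ℚ_[p] k).comp (algebraMap ℤ_[p] ℚ_[p])) ζ Φ = 0)
    (δ : A →+ A) {z : k ⊗[ℤ] A} (hz : z ≠ 0)
    (hδz : (extEnd δ : (k ⊗[ℤ] A) →ₗ[k] (k ⊗[ℤ] A)) z = ζ • z) :
    ∃ w : ℤ_[p] ⊗[ℤ] A, (∃ φ : ℤ_[p] ⊗[ℤ] A →ₗ[ℤ_[p]] ℤ_[p], φ w ≠ 0) ∧ aeval (bc p δ) Φ w = 0 ∧
      ∀ g : A →+ ℚ_[p], ek k g z = 0 → ez g w = 0 := by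
  have hch : CharZero k := charZero_of_injective_algebraMap (algebraMap ℚ_[p] k).injective
  obtain ⟨r, π, s, hs, hk⟩ := exists_coord A
  obtain ⟨N₀, hN0, hN⟩ := exists_exp hk
  have hzc := coord_eq hs hN k z
  have hv : (fun t => cr π k t z) ≠ 0 := by
    intro h
    apply hz
    have h1 : N₀ • z = 0 := by
      rw [hzc]
      have h2 : ∀ t, cr π k t z = 0 := fun t => congrFun h t
      simp [h2]
    rw [← Nat.cast_smul_eq_nsmul k] at h1
    exact (smul_eq_zero.1 h1).resolve_left (Nat.cast_ne_zero.2 hN0)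
  obtain ⟨ω, t₀, hω, hrel⟩ := exists_lin (p := p) hv
  let b₀ : ℤ_[p] ⊗[ℤ] A := ∑ t, ω t ⊗ₜ[ℤ] s (Pi.single t 1)
  have hgp : ∀ g : A →+ ℚ_[p], ek k g z = 0 → ez g b₀ = 0 := by
    intro g hg
    have h1 := congrArg (ek k g) hzc
    rw [map_nsmul, map_nsmul, hg, smul_zero, map_sum] at h1
    simp only [ek_tmul] at h1
    have h2 := (smul_eq_zero.1 h1.symm).resolve_left hN0
    have h3 := hrel (fun t => g (s (Pi.single t 1))) h2
    show ez g (∑ t, ω t ⊗ₜ[ℤ] s (Pi.single t 1)) = 0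
    rw [map_sum]
    simp only [ez_tmul]
    exact h3
  have hcr : ∀ t, cr π ℤ_[p] t b₀ = ω t := by
    intro t
    show cr π ℤ_[p] t (∑ t, ω t ⊗ₜ[ℤ] s (Pi.single t 1)) = _
    rw [map_sum]
    simp only [cr_tmul, hs]
    rw [Finset.sum_eq_single t]
    · simp
    · intro t' _ ht'
      rw [Pi.single_eq_of_ne (Ne.symm ht')]
      simp
    · intro h
      exact absurd (Finset.mem_univ t) h
  refine ⟨N₀ • b₀, ?_, ?_, ?_⟩
  · refine ⟨cr π ℤ_[p] t₀, fun h1 => ?_⟩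
    rw [map_nsmul, hcr, hω, nsmul_eq_mul, mul_one] at h1
    exact hN0 (by exact_mod_cast h1)
  · rw [map_nsmul]
    have h1 : ∀ t, cr π ℤ_[p] t (aeval (bc p δ) Φ b₀) = 0 := by
      intro t
      -- the homomorphism `∑ Φ_n π_t δ^n`
      let q : ℕ → A →+ ℚ_[p] := fun n =>
        ((Int.castAddHom ℚ_[p]).comp ((Pi.evalAddMonoidHom (fun _ : Fin r => ℤ) t).comp π)).comp
          (it δ n)
      let g : A →+ ℚ_[p] := ∑ n ∈ Finset.range (Φ.natDegree + 1),
        (AddMonoidHom.mulLeft ((Φ.coeff n : ℤ_[p]) : ℚ_[p])).comp (q n)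
      have hg : ∀ a, g a = ∑ n ∈ Finset.range (Φ.natDegree + 1),
          ((Φ.coeff n : ℤ_[p]) : ℚ_[p]) * ((π (δ^[n] a) t : ℤ) : ℚ_[p]) := by
        intro a
        show (∑ n ∈ Finset.range (Φ.natDegree + 1), _ : A →+ ℚ_[p]) a = _
        rw [AddMonoidHom.finsetSum_apply]
        rfl
      have hek : ∀ x : k ⊗[ℤ] A, ek k g x = ∑ n ∈ Finset.range (Φ.natDegree + 1),
          (algebraMap ℚ_[p] k (algebraMap ℤ_[p] ℚ_[p] (Φ.coeff n))) *
            cr π k t ((extEnd δ : (k ⊗[ℤ] A) →ₗ[k] (k ⊗[ℤ] A))^[n] x) := by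
        intro x
        induction x using TensorProduct.induction_on with
        | zero =>
          rw [map_zero]
          refine (Finset.sum_eq_zero fun n _ => ?_).symm
          have h : (extEnd δ : (k ⊗[ℤ] A) →ₗ[k] (k ⊗[ℤ] A))^[n] 0 = 0 := by
            have := extEnd_iter_tmul (k := k) δ n 0 0
            rw [TensorProduct.zero_tmul, TensorProduct.zero_tmul] at this
            exact this
          rw [h, map_zero, mul_zero]
        | tmul c a =>
          rw [ek_tmul, hg, map_sum, Finset.mul_sum]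
          refine Finset.sum_congr rfl fun n _ => ?_
          rw [extEnd_iter_tmul, cr_tmul, map_mul, map_intCast]
          show c * (algebraMap ℚ_[p] k (Φ.coeff n : ℚ_[p]) * _) = algebraMap ℚ_[p] k
            (Φ.coeff n : ℚ_[p]) * _
          ring
        | add x y hx hy =>
          rw [map_add, hx, hy, ← Finset.sum_add_distrib]
          refine Finset.sum_congr rfl fun n _ => ?_
          rw [extEnd_iter, map_add, mul_add]
      have hit : ∀ n : ℕ, (extEnd δ : (k ⊗[ℤ] A) →ₗ[k] (k ⊗[ℤ] A))^[n] z = ζ ^ n • z := by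
        intro n
        induction n with
        | zero => simp
        | succ n ih =>
          rw [Function.iterate_succ_apply', ih, map_smul, hδz, smul_smul, pow_succ]
      have hgz : ek k g z = 0 := by
        rw [hek]
        simp only [hit, map_smul, smul_eq_mul, ← mul_assoc]
        rw [← Finset.sum_mul]
        have h2 := hΦ
        rw [eval₂_eq_sum_range] at h2
        have h3 : ∑ n ∈ Finset.range (Φ.natDegree + 1),
            (algebraMap ℚ_[p] k (algebraMap ℤ_[p] ℚ_[p] (Φ.coeff n))) * ζ ^ n = 0 := h2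
        rw [h3, zero_mul]
      have h4 := hgp g hgz
      have hez : ∀ x : ℤ_[p] ⊗[ℤ] A, ez g x =
          ((cr π ℤ_[p] t (aeval (bc p δ) Φ x) : ℤ_[p]) : ℚ_[p]) := by
        intro x
        rw [aeval_eq_sum_range, LinearMap.sum_apply, map_sum]
        induction x using TensorProduct.induction_on with
        | zero => simp
        | tmul c a =>
          rw [ez_tmul, hg, Finset.mul_sum, PadicInt.coe_sum]
          refine Finset.sum_congr rfl fun n _ => ?_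
          rw [LinearMap.smul_apply, bc_pow_tmul, map_smul, cr_tmul, smul_eq_mul]
          push_cast
          ring
        | add x y hx hy =>
          simp only [map_add, hx, hy, Finset.sum_add_distrib, PadicInt.coe_add]
      rw [hez, PadicInt.coe_eq_zero] at h4
      exact h4
    rw [coord_eq hs hN ℤ_[p]]
    simp [h1]
  · intro g hg
    rw [map_nsmul, hgp g hg, smul_zero]

end gp

section quot

variable {p : ℕ} [Fact p.Prime] {B : Type} [AddCommGroup B] [Module ℤ_[p] B]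

theorem tor_le (g : Module.End ℤ_[p] B) :
    Submodule.torsion ℤ_[p] B ≤ (Submodule.torsion ℤ_[p] B).comap g := by
  intro x hx
  rw [Submodule.mem_comap]
  rw [Submodule.mem_torsion_iff] at hx ⊢
  obtain ⟨a, ha⟩ := hx
  refine ⟨a, ?_⟩
  rw [Submonoid.smul_def] at ha ⊢
  rw [← map_smul, ha, map_zero]

theorem tor_ker {C : Type} [AddCommGroup C] [Module ℤ_[p] C] [Module.IsTorsionFree ℤ_[p] C]
    (g : B →ₗ[ℤ_[p]] C) : Submodule.torsion ℤ_[p] B ≤ LinearMap.ker g := by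
  intro x hx
  rw [LinearMap.mem_ker]
  rw [Submodule.mem_torsion_iff] at hx
  obtain ⟨a, ha⟩ := hx
  rw [Submonoid.smul_def] at ha
  have h1 : (a : ℤ_[p]) • g x = 0 := by rw [← map_smul, ha, map_zero]
  exact (smul_eq_zero.1 h1).resolve_left (nonZeroDivisors.ne_zero a.2)

/-- the endomorphism of the quotient by the torsion -/
noncomputable def qe (g : Module.End ℤ_[p] B) :
    Module.End ℤ_[p] (B ⧸ Submodule.torsion ℤ_[p] B) :=
  (Submodule.torsion ℤ_[p] B).mapQ (Submodule.torsion ℤ_[p] B) g (tor_le g)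

theorem qe_mk (g : Module.End ℤ_[p] B) (x : B) :
    qe g ((Submodule.torsion ℤ_[p] B).mkQ x) = (Submodule.torsion ℤ_[p] B).mkQ (g x) := rfl

theorem qe_pow_mk (g : Module.End ℤ_[p] B) (l : ℕ) (x : B) :
    (qe g ^ l) ((Submodule.torsion ℤ_[p] B).mkQ x) =
      (Submodule.torsion ℤ_[p] B).mkQ ((g ^ l) x) := by
  induction l generalizing x with
  | zero => rfl
  | succ l ih => rw [pow_succ, Module.End.mul_apply, qe_mk, ih, pow_succ, Module.End.mul_apply]

theorem qe_sub_pow_mk (g : Module.End ℤ_[p] B) (l : ℕ) (x : B) :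
    ((qe g - 1) ^ l) ((Submodule.torsion ℤ_[p] B).mkQ x) =
      (Submodule.torsion ℤ_[p] B).mkQ (((g - 1) ^ l) x) := by
  induction l generalizing x with
  | zero => rfl
  | succ l ih =>
    rw [pow_succ, Module.End.mul_apply, LinearMap.sub_apply, Module.End.one_apply, qe_mk,
      ← map_sub, ih, pow_succ, Module.End.mul_apply]
    rfl

theorem mk_surj (x : B ⧸ Submodule.torsion ℤ_[p] B) :
    ∃ b, (Submodule.torsion ℤ_[p] B).mkQ b = x := Submodule.mkQ_surjective _ x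

theorem mk_eq_zero {x : B} : (Submodule.torsion ℤ_[p] B).mkQ x = 0 ↔
    x ∈ Submodule.torsion ℤ_[p] B := by
  rw [Submodule.mkQ_apply]
  exact Submodule.Quotient.mk_eq_zero _

theorem qe_comm {g h : Module.End ℤ_[p] B} (hc : Commute g h) (x) :
    qe g (qe h x) = qe h (qe g x) := by
  obtain ⟨b, rfl⟩ := mk_surj x
  rw [qe_mk, qe_mk, qe_mk, qe_mk, ← Module.End.mul_apply, hc.eq, Module.End.mul_apply]

end quot

/-- the structure of the proof: the element of `ℤ_p ⊗ A` -/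
theorem elt {p : ℕ} [Fact p.Prime] (hp2 : p ≠ 2) {m n : ℕ} {ζ : ℤ_[p]}
    (hm : 0 < m) (hmp : m.Coprime p) (hζm : ζ ^ m = 1)
    {B : Type} [AddCommGroup B] [Module ℤ_[p] B] [Module.Finite ℤ_[p] B]
    (dB sB : Module.End ℤ_[p] B) (hcB : Commute dB sB) (hdm : dB ^ m = 1)
    (hgeo : ∑ j ∈ Finset.range p, (sB ^ p ^ n) ^ j = 0)
    {ι : Type} (F : ι → B →ₗ[ℤ_[p]] ℚ_[p]) (w₀ : B) (hw₀ : ∃ φ : B →ₗ[ℤ_[p]] ℤ_[p], φ w₀ ≠ 0)
    (hw₁ : dB w₀ = ζ • w₀) (hw₂ : ∀ j l, F j ((sB ^ l) w₀) = 0) :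
    ∃ w : B, dB w = ζ • w ∧ (∀ j l, F j ((sB ^ l) w) = 0) ∧
      (∃ y, sB w - w = (sB ^ p ^ n) y - y) ∧
      ¬ ∃ v t, t ∈ Submodule.torsion ℤ_[p] B ∧ w = ((sB ^ p ^ n) v - v) + t := by
  have hp : p.Prime := Fact.out
  set T := Submodule.torsion ℤ_[p] B with hT
  let G : ι → (B ⧸ T) →ₗ[ℤ_[p]] ℚ_[p] := fun j => T.liftQ (F j) (tor_ker (F j))
  have hG : ∀ j b, G j (T.mkQ b) = F j b := fun j b => rfl
  let W : Submodule ℤ_[p] (B ⧸ T) :=
    LinearMap.ker (qe dB - ζ • 1) ⊓ ⨅ j : ι, ⨅ l : ℕ, LinearMap.ker (G j ∘ₗ qe sB ^ l)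
  have hmem : ∀ x, x ∈ W ↔ qe dB x = ζ • x ∧ ∀ j l, G j ((qe sB ^ l) x) = 0 := by
    intro x
    show x ∈ (LinearMap.ker (qe dB - ζ • 1) ⊓ ⨅ j : ι, ⨅ l : ℕ, LinearMap.ker (G j ∘ₗ qe sB ^ l) :
      Submodule ℤ_[p] (B ⧸ T)) ↔ _
    rw [Submodule.mem_inf, LinearMap.mem_ker, Submodule.mem_iInf, LinearMap.sub_apply,
      LinearMap.smul_apply, Module.End.one_apply, sub_eq_zero]
    simp only [Submodule.mem_iInf, LinearMap.mem_ker, LinearMap.comp_apply]
  have hgeo' : ∑ j ∈ Finset.range p, (qe sB ^ p ^ n) ^ j = 0 := by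
    refine LinearMap.ext fun x => ?_
    obtain ⟨b, rfl⟩ := mk_surj x
    rw [LinearMap.sum_apply, LinearMap.zero_apply]
    have h1 : ∀ j, ((qe sB ^ p ^ n) ^ j) (T.mkQ b) = T.mkQ (((sB ^ p ^ n) ^ j) b) := by
      intro j
      rw [← pow_mul, ← pow_mul, qe_pow_mk]
    rw [Finset.sum_congr rfl fun j _ => h1 j, ← map_sum, ← LinearMap.sum_apply, hgeo,
      LinearMap.zero_apply, map_zero]
  have hfix : ∀ x, qe sB x = x → x = 0 := fun x hx => fix_zero (qe sB ^ p ^ n) hgeo'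
    (sum_fix (qe sB) hx _)
  have hW : ∀ w ∈ W, qe sB w ∈ W := by
    intro w hw
    rw [hmem] at hw ⊢
    refine ⟨?_, fun j l => ?_⟩
    · rw [qe_comm hcB, hw.1, map_smul]
    · have := hw.2 j (l + 1)
      rwa [pow_succ, Module.End.mul_apply] at this
  have hsat : ∀ v, qe sB v - v ∈ W → v ∈ W := by
    intro v hv
    rw [hmem] at hv ⊢
    obtain ⟨hv1, hv2⟩ := hv
    refine ⟨?_, fun j => ?_⟩
    · have h1 := hfix (qe dB v - ζ • v) (by
        rw [map_sub, map_smul, qe_comm hcB.symm]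
        rw [map_sub, smul_sub] at hv1
        have : qe dB (qe sB v) = qe dB v + (ζ • qe sB v - ζ • v) := by rw [← hv1]; abel
        rw [this]
        abel)
      exact sub_eq_zero.1 h1
    · have h1 : ∀ l : ℕ, G j ((qe sB ^ l) v) = G j v := by
        intro l
        induction l with
        | zero => rfl
        | succ l ih =>
          have h2 := hv2 j l
          rw [map_sub, map_sub, sub_eq_zero, ih] at h2
          rw [pow_succ, Module.End.mul_apply]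
          exact h2
      have h3 : (p : ℚ_[p]) * G j v = 0 := by
        have h4 := congrArg (fun T : Module.End ℤ_[p] _ => G j (T v)) hgeo'
        simp only [LinearMap.sum_apply, LinearMap.zero_apply, map_sum, map_zero, ← pow_mul,
          h1] at h4
        rw [Finset.sum_const, Finset.card_range, nsmul_eq_mul] at h4
        exact h4
      have h5 : G j v = 0 := (mul_eq_zero.1 h3).resolve_left (Nat.cast_ne_zero.2 hp.ne_zero)
      intro l
      rw [h1 l, h5]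
  have hne : W ≠ ⊥ := by
    intro h
    have h1 : T.mkQ w₀ ∈ W := by
      rw [hmem]
      refine ⟨?_, fun j l => ?_⟩
      · rw [qe_mk, hw₁, map_smul]
      · rw [qe_pow_mk, hG, hw₂]
    rw [h, Submodule.mem_bot, mk_eq_zero] at h1
    obtain ⟨φ, hφ⟩ := hw₀
    exact hφ (tor_ker φ h1)
  obtain ⟨w, hwW, hw⟩ := key hp2 n (qe sB) hgeo' W hW hsat hne
  obtain ⟨b₀, rfl⟩ := mk_surj w
  -- the projector
  have hmu : IsUnit (m : ℤ_[p]) := by
    rw [PadicInt.isUnit_iff, PadicInt.norm_natCast_eq_one_iff]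
    exact hmp.symm
  obtain ⟨c, hc⟩ := hmu.exists_left_inv
  have hz1 : ζ ^ (m - 1) * ζ = 1 := by rw [← pow_succ, Nat.sub_add_cancel hm, hζm]
  set ζ' := ζ ^ (m - 1) with hζ'
  obtain ⟨U, hU⟩ : ∃ U : Module.End ℤ_[p] B, U = ζ' • dB := ⟨_, rfl⟩
  have hUa : ∀ x, U x = ζ' • dB x := fun x => by rw [hU, LinearMap.smul_apply]
  have hUm : U ^ m = 1 := by
    rw [hU, _root_.smul_pow, hdm, hζ', ← pow_mul, mul_comm, pow_mul, hζm, one_pow, one_smul]
  obtain ⟨E, hE⟩ : ∃ E : Module.End ℤ_[p] B, E = c • ∑ l ∈ Finset.range m, U ^ l := ⟨_, rfl⟩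
  have hEa : ∀ x, E x = c • (∑ l ∈ Finset.range m, U ^ l) x := fun x => by
    rw [hE, LinearMap.smul_apply]
  have hUE : ∀ x, U (E x) = E x := by
    intro x
    have h1 := mul_geom_sum U m
    rw [hUm, sub_self] at h1
    have h2 := congrArg (fun T : Module.End ℤ_[p] B => T x) h1
    simp only [Module.End.mul_apply, LinearMap.zero_apply] at h2
    rw [LinearMap.sub_apply, Module.End.one_apply, sub_eq_zero] at h2
    rw [hEa, map_smul, h2]
  have hdE : ∀ x, dB (E x) = ζ • E x := by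
    intro x
    have h1 := hUE x
    rw [hUa] at h1
    conv_rhs => rw [← h1]
    rw [smul_smul, mul_comm, hz1, one_smul]
  have hcU : Commute U sB := by
    rw [hU]
    exact hcB.smul_left ζ'
  have hcE : Commute E sB := by
    rw [hE]
    refine Commute.smul_left (Commute.sum_left _ _ _ fun l _ => hcU.pow_left l) c
  have hcE1 : Commute E (sB - 1) := hcE.sub_right (Commute.one_right _)
  have hmkE : ∀ x, qe dB (T.mkQ x) = ζ • T.mkQ x → T.mkQ (E x) = T.mkQ x := by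
    intro x hx
    have h1 : ∀ l, T.mkQ ((U ^ l) x) = T.mkQ x := by
      intro l
      induction l with
      | zero => rfl
      | succ l ih =>
        rw [pow_succ', Module.End.mul_apply]
        rw [hUa, map_smul, ← qe_mk, ih, hx, smul_smul, hz1, one_smul]
    rw [hEa, LinearMap.sum_apply, map_smul, map_sum,
      Finset.sum_congr rfl fun l _ => h1 l, Finset.sum_const, Finset.card_range,
      ← Nat.cast_smul_eq_nsmul ℤ_[p], smul_smul, hc, one_smul]
  have hWk : ∀ k : ℕ, ((qe sB - 1 : Module.End ℤ_[p] (B ⧸ T)) ^ k) (T.mkQ b₀) ∈ W := by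
    intro k
    induction k with
    | zero => exact hwW
    | succ k ih =>
      rw [pow_succ', Module.End.mul_apply, LinearMap.sub_apply, Module.End.one_apply]
      exact W.sub_mem (hW _ ih) ih
  set b := ((sB - 1) ^ (p ^ n - 1)) b₀ with hb
  have hbW : T.mkQ b ∈ W := by
    rw [hb, ← qe_sub_pow_mk]
    exact hWk _
  have hmkb : T.mkQ (E b) = T.mkQ b := hmkE b ((hmem _).1 hbW).1
  refine ⟨E b, hdE b, fun j l => ?_, ?_, ?_⟩
  · rw [← hG, ← qe_pow_mk, hmkb]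
    exact ((hmem _).1 hbW).2 j l
  · obtain ⟨a, ha, ha2⟩ := main_ident' sB hp hp2 n hgeo
    refine ⟨E ((1 + (sB ^ p ^ n - 1) * a) b₀), ?_⟩
    have h1 : (sB - 1) (E b) = E (((sB - 1) ^ p ^ n) b₀) := by
      have h2 : (sB - 1) ^ p ^ n = (sB - 1) * (sB - 1) ^ (p ^ n - 1) := by
        rw [← pow_succ', Nat.sub_add_cancel (Nat.one_le_pow _ _ hp.pos)]
      rw [h2, Module.End.mul_apply, ← hb, ← Module.End.mul_apply, ← hcE1.eq, Module.End.mul_apply]
    have h3 : Commute E (sB ^ p ^ n - 1) := (hcE.pow_right _).sub_right (Commute.one_right _)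
    have h4 : E (((sB - 1) ^ p ^ n) b₀) =
        (sB ^ p ^ n - 1) (E ((1 + (sB ^ p ^ n - 1) * a) b₀)) := by
      rw [ha2, Module.End.mul_apply, ← Module.End.mul_apply, h3.eq, Module.End.mul_apply]
    rw [h4] at h1
    exact h1
  · rintro ⟨v, t, ht, hvt⟩
    apply hw
    refine ⟨T.mkQ v, ?_⟩
    rw [qe_sub_pow_mk, ← hb, ← hmkb, hvt, map_add, mk_eq_zero.2 ht, add_zero, map_sub, qe_pow_mk]

theorem o_la : Pool.Agent.Helper38.WY.O_LA := by
  intro p _ hp2 k _ _ m n i ζ hm hmp hζm hζi A _ _ δ σ hδm hcomm hsum ι _ f z hz hδz hfz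
  have hp : p.Prime := Fact.out
  have hp0 : (p : ℝ) ≠ 0 := Nat.cast_ne_zero.2 hp.ne_zero
  obtain ⟨Φ, hΦ⟩ : ∃ Φ : ℤ_[p][X], Φ = X - C ζ := ⟨_, rfl⟩
  have hΦ0 : eval₂ ((algebraMap ℚ_[p] k).comp (algebraMap ℤ_[p] ℚ_[p]))
      (algebraMap ℚ_[p] k (ζ : ℚ_[p])) Φ = 0 := by
    rw [hΦ, eval₂_sub, eval₂_X, eval₂_C]
    exact sub_self _
  have hΦd : ∀ (T : Module.End ℤ_[p] (ℤ_[p] ⊗[ℤ] A)) x, aeval T Φ x = T x - ζ • x := by
    intro T x
    rw [hΦ, map_sub, aeval_X, aeval_C, LinearMap.sub_apply, Module.algebraMap_end_apply]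
  obtain ⟨w₀, hw₀, hw₁, hw₂⟩ := gp2 Φ _ hΦ0 δ hz hδz
  obtain ⟨γ, hγd⟩ : ∃ γ : A →+ A, γ = it σ (p ^ n) := ⟨_, rfl⟩
  have hγa : ∀ x, γ x = σ^[p ^ n] x := fun x => by rw [hγd]; rfl
  have hγi : ∀ j x, γ^[j] x = σ^[p ^ n * j] x := by
    intro j x
    rw [Function.iterate_mul]
    exact congrArg (fun g : A → A => g^[j] x) (_root_.funext hγa)
  have hγ : ∀ x, ∑ j ∈ Finset.range p, γ^[j] x = 0 := by
    intro x
    rw [Finset.sum_congr rfl fun j _ => hγi j x]
    exact hsum x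
  set dB := bc p δ with hdB
  set sB := bc p σ with hsB
  have hcB : Commute dB sB := bc_comm p δ σ hcomm
  have hgs : bc p γ = sB ^ p ^ n := by
    refine LinearMap.ext fun x => ?_
    induction x using TensorProduct.induction_on with
    | zero => simp
    | tmul c a => rw [bc_tmul, hsB, bc_pow_tmul, hγa]
    | add x y hx hy => rw [map_add, hx, hy, map_add]
  have hgeo : ∑ j ∈ Finset.range p, (sB ^ p ^ n) ^ j = 0 := by
    rw [← hgs]
    exact bc_geom p γ hγ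
  have hdm : dB ^ m = 1 := by
    refine LinearMap.ext fun x => ?_
    induction x using TensorProduct.induction_on with
    | zero => simp
    | tmul c a => rw [hdB, bc_pow_tmul, hδm]; rfl
    | add x y hx hy => rw [map_add, hx, hy, map_add]
  rw [hΦd, sub_eq_zero] at hw₁
  obtain ⟨w, hwd, hwF, ⟨y, hy⟩, hw⟩ := elt hp2 hm hmp hζm dB sB hcB hdm hgeo (fun j => ez (f j))
    w₀ hw₀ hw₁ (fun j l => by
      rw [hsB, ← ez_it]
      refine hw₂ _ ?_
      rw [ek_it]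
      exact hfz j l)
  rw [← hgs] at hy hw
  set gB := bc p γ with hgB
  obtain ⟨c₀, hc₀⟩ := exists_bound f
  -- the sequence
  have hdens := fun N : ℕ => density p (N + c₀ + 1) w
  choose u b hub using hdens
  have hpB : ∀ x : ℤ_[p] ⊗[ℤ] A, ∃ v, (p : ℤ_[p]) • x = gB v - v := by
    intro x
    obtain ⟨v, hv⟩ := nsmul_mem (gB : (ℤ_[p] ⊗[ℤ] A) →+ (ℤ_[p] ⊗[ℤ] A)) p (fun x => by
      have h1 := congrArg (fun T : Module.End ℤ_[p] (ℤ_[p] ⊗[ℤ] A) => T x) hgeo
      rw [← hgs] at h1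
      simp only [LinearMap.sum_apply, LinearMap.zero_apply, Module.End.pow_apply] at h1
      exact h1) x
    exact ⟨v, by rw [Nat.cast_smul_eq_nsmul]; exact hv⟩
  have hpow : ∀ (N : ℕ), (p : ℤ_[p]) ^ (N + c₀ + 1) • b N =
      (p : ℤ_[p]) • ((p : ℤ_[p]) ^ (N + c₀) • b N) := fun N => by
    rw [smul_smul, ← pow_succ']
  have hu1 : ∀ N, (1 : ℤ_[p]) ⊗ₜ[ℤ] u N = w - (p : ℤ_[p]) ^ (N + c₀ + 1) • b N := fun N =>
    eq_sub_of_add_eq (hub N).symm
  refine ⟨u, ?_, ?_, ?_, ?_, ?_⟩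
  · intro N
    have h1 : (1 : ℤ_[p]) ⊗ₜ[ℤ] (u N - u 0) =
        (p : ℤ_[p]) • ((p : ℤ_[p]) ^ (0 + c₀) • b 0 - (p : ℤ_[p]) ^ (N + c₀) • b N) := by
      rw [TensorProduct.tmul_sub, hu1, hu1, smul_sub, ← hpow, ← hpow]
      abel
    obtain ⟨a', ha'⟩ := inj_mod p _ _ h1
    obtain ⟨v, hv⟩ := nsmul_mem γ p hγ a'
    exact ⟨v, by rw [← hγa, ← hv, ← ha']; abel⟩
  · rintro ⟨a, t, l, hl, hlt, ha⟩
    apply hw
    obtain ⟨v, hv⟩ := hpB ((p : ℤ_[p]) ^ (0 + c₀) • b 0)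
    refine ⟨(1 : ℤ_[p]) ⊗ₜ[ℤ] a + v, (1 : ℤ_[p]) ⊗ₜ[ℤ] t, ?_, ?_⟩
    · rw [Submodule.mem_torsion_iff]
      refine ⟨⟨(l : ℤ_[p]), mem_nonZeroDivisors_of_ne_zero (Nat.cast_ne_zero.2 hl.ne')⟩, ?_⟩
      rw [Submonoid.smul_def]
      show (l : ℤ_[p]) • ((1 : ℤ_[p]) ⊗ₜ[ℤ] t) = 0
      rw [Nat.cast_smul_eq_nsmul, ← TensorProduct.tmul_smul, hlt, TensorProduct.tmul_zero]
    · have h1 := hub 0
      rw [hpow, hv, ha, TensorProduct.tmul_add, TensorProduct.tmul_sub, ← hγa] at h1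
      rw [h1, map_add, hgB, bc_tmul]
      abel
  · -- the polynomial
    have hPm : (X - C (i : ZMod p) : (ZMod p)[X]) = Φ.map PadicInt.toZMod := by
      rw [hΦ, Polynomial.map_sub, map_X, map_C, hζi]
    have hwΦ : aeval dB Φ w = 0 := by rw [hΦd, hwd, sub_self]
    generalize (X - C (i : ZMod p) : (ZMod p)[X]) = P at hPm ⊢
    have h1 : ∀ n : ℕ, ∃ d : ℤ_[p], (((P.coeff n).val : ℕ) : ℤ_[p]) - Φ.coeff n = p * d := by
      intro n
      have h2 : (((P.coeff n).val : ℕ) : ℤ_[p]) - Φ.coeff n ∈ IsLocalRing.maximalIdeal ℤ_[p] := by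
        rw [← PadicInt.ker_toZMod, RingHom.mem_ker, map_sub, map_natCast, ZMod.natCast_zmod_val,
          hPm, coeff_map, sub_self]
      rw [PadicInt.maximalIdeal_eq_span_p, Ideal.mem_span_singleton] at h2
      exact h2
    choose d hd using h1
    have hsub : P.support ⊆ Finset.range (Φ.natDegree + 1) := by
      rw [hPm]
      intro n hn
      rw [Finset.mem_range]
      have h1 := le_natDegree_of_mem_supp n hn
      have h2 := natDegree_map_le (f := (PadicInt.toZMod (p := p))) (p := Φ)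
      omega
    have h3 : ∑ n ∈ P.support, (P.coeff n).val • (dB ^ n) w =
        (p : ℤ_[p]) • ∑ n ∈ Finset.range (Φ.natDegree + 1), d n • (dB ^ n) w := by
      have h4 : ∑ n ∈ P.support, (P.coeff n).val • (dB ^ n) w =
          ∑ n ∈ Finset.range (Φ.natDegree + 1), (P.coeff n).val • (dB ^ n) w := by
        refine Finset.sum_subset hsub fun n _ hn => ?_
        rw [notMem_support_iff.1 hn, ZMod.val_zero, zero_smul]
      have h5 : ∑ n ∈ Finset.range (Φ.natDegree + 1), Φ.coeff n • (dB ^ n) w = 0 := by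
        rw [← hwΦ, aeval_eq_sum_range, LinearMap.sum_apply]
        rfl
      rw [h4, ← sub_zero (∑ n ∈ Finset.range (Φ.natDegree + 1), (P.coeff n).val • (dB ^ n) w),
        ← h5, ← Finset.sum_sub_distrib, Finset.smul_sum]
      refine Finset.sum_congr rfl fun n _ => ?_
      rw [← Nat.cast_smul_eq_nsmul ℤ_[p], ← sub_smul, hd, mul_smul]
    have h6 : (1 : ℤ_[p]) ⊗ₜ[ℤ] (∑ j ∈ P.support, (P.coeff j).val • δ^[j] (u 0)) =
        (p : ℤ_[p]) • (∑ n ∈ Finset.range (Φ.natDegree + 1), d n • (dB ^ n) w -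
          ∑ n ∈ P.support, (P.coeff n).val • (dB ^ n) ((p : ℤ_[p]) ^ (0 + c₀) • b 0)) := by
      rw [smul_sub, ← h3, TensorProduct.tmul_sum, Finset.smul_sum, ← Finset.sum_sub_distrib]
      refine Finset.sum_congr rfl fun n _ => ?_
      rw [TensorProduct.tmul_smul, ← bc_pow_tmul, hu1, ← hdB, map_sub, smul_sub, hpow, map_smul,
        smul_comm]
    obtain ⟨a', ha'⟩ := inj_mod p _ _ h6
    obtain ⟨v, hv⟩ := nsmul_mem γ p hγ a'
    exact ⟨v, by rw [ha', hv, hγa]⟩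
  · obtain ⟨a, y', hy'⟩ := density p 1 y
    rw [pow_one] at hy'
    set x := (p : ℤ_[p]) ^ (0 + c₀) • b 0 with hx
    have h0 : (1 : ℤ_[p]) ⊗ₜ[ℤ] u 0 = w - (p : ℤ_[p]) • x := by rw [hu1, hpow]
    have h1 : (1 : ℤ_[p]) ⊗ₜ[ℤ] (σ (u 0) - u 0 - (γ a - a)) =
        (p : ℤ_[p]) • (gB y' - y' - (sB x - x)) := by
      have h2 : (1 : ℤ_[p]) ⊗ₜ[ℤ] σ (u 0) = sB w - (p : ℤ_[p]) • sB x := by
        rw [← bc_tmul, ← hsB, h0, map_sub, map_smul]
      have h3 : (1 : ℤ_[p]) ⊗ₜ[ℤ] γ a = gB y - (p : ℤ_[p]) • gB y' := by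
        rw [← bc_tmul, ← hgB, eq_sub_of_add_eq hy'.symm, map_sub, map_smul]
      have h4 : (1 : ℤ_[p]) ⊗ₜ[ℤ] a = y - (p : ℤ_[p]) • y' := eq_sub_of_add_eq hy'.symm
      have h5 : sB w = w + (gB y - y) := by rw [← hy]; abel
      rw [TensorProduct.tmul_sub, TensorProduct.tmul_sub, TensorProduct.tmul_sub, h2, h3, h4, h0,
        h5, smul_sub, smul_sub, smul_sub]
      abel
    obtain ⟨a', ha'⟩ := inj_mod p _ _ h1
    obtain ⟨v, hv⟩ := nsmul_mem γ p hγ a'
    refine ⟨a + v, ?_⟩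
    rw [← hγa, map_add]
    have h6 : σ (u 0) - u 0 = (γ a - a) + (γ v - v) := by rw [← hv, ← ha']; abel
    rw [h6]
    abel
  · intro N j l
    have h1 : ((f j (σ^[l] (u N)) : ℚ_[p])) =
        -((p : ℚ_[p]) ^ (N + c₀ + 1) * ez (f j) ((sB ^ l) (b N))) := by
      have h2 : f j (σ^[l] (u N)) = ez (f j) ((sB ^ l) ((1 : ℤ_[p]) ⊗ₜ[ℤ] u N)) := by
        rw [hsB, bc_pow_tmul, ez_tmul]
        simp
      rw [h2, hu1, map_sub, map_sub, hwF, zero_sub, map_smul, map_smul]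
      congr 1
    rw [h1, norm_neg, norm_mul, norm_pow, Padic.norm_p]
    have h3 := hc₀ j ((sB ^ l) (b N))
    have h4 : (0 : ℝ) < p := Nat.cast_pos.2 hp.pos
    calc ((p : ℝ)⁻¹) ^ (N + c₀ + 1) * ‖ez (f j) ((sB ^ l) (b N))‖
        ≤ ((p : ℝ)⁻¹) ^ (N + c₀ + 1) * (p : ℝ) ^ c₀ :=
          mul_le_mul_of_nonneg_left h3 (by positivity)
      _ = (1 / p : ℝ) ^ N * (p : ℝ)⁻¹ := by
          rw [one_div, pow_succ, pow_add]
          have : ((p : ℝ)⁻¹) ^ c₀ * (p : ℝ) ^ c₀ = 1 := by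
            rw [← mul_pow, inv_mul_cancel₀ hp0, one_pow]
          linear_combination (((p : ℝ)⁻¹) ^ N * (p : ℝ)⁻¹) * this
      _ ≤ (1 / p : ℝ) ^ N := by
          refine mul_le_of_le_one_right (by positivity) ?_
          exact inv_le_one_of_one_le₀ (Nat.one_le_cast.2 hp.one_lt.le)

end Pool.Agent.Helper86.WY
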